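import Pool.Agent.Y554.SN.Stm
import Pool.Agent.H389R2.NS.S4

/-! Project SN: four arms in an annulus is a family of arm events with exponent `5/4`. -/

set_option autoImplicit false

namespace Pool.Agent.Y554.SN

open H974 H12S H985T H389NS Finset Pool.Agent.Y554.DP

theorem AF4_congr {a N : ℕ} {F G : Set Edg} (h : F ∩ ↑(An a N) = G ∩ ↑(An a N)) :
    AF4 a N F ↔ AF4 a N G := by
  unfold AF4
  rw [h]

theorem AF4_inner {a b N : ℕ} {F : Set Edg} (hab : a ≤ b) (hN : b ≤ N) (h : AF4 a N F) :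
    AF4 b N F := by
  obtain ⟨u1, u2, v1, v2, hu1, hu2, hv1, hv2, hr1, hr2, hn⟩ := h
  have hin : ∀ {u : Vtx}, onB a u → inR (-(b:ℤ)) b (-(b:ℤ)) b u := by
    intro u hu
    obtain ⟨h1, _⟩ := hu
    unfold inR at h1 ⊢
    omega
  obtain ⟨w1, hw1, k1⟩ := INDI_pexit hN (G := F ∩ ↑(An a N)) (F := F) Set.inter_subset_left
      (fun e he => (INDI_memAn.1 (mem_coe.1 he.2)).1) hv1 hr1.symm (hin hu1)
  obtain ⟨w2, hw2, k2⟩ := INDI_pexit hN (G := F ∩ ↑(An a N)) (F := F) Set.inter_subset_left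
      (fun e he => (INDI_memAn.1 (mem_coe.1 he.2)).1) hv2 hr2.symm (hin hu2)
  have hsub : F ∩ ↑(An b N) ⊆ F ∩ ↑(An a N) := by
    rintro g ⟨g1, g2⟩
    refine ⟨g1, ?_⟩
    rw [mem_coe, INDI_memAn] at g2 ⊢
    exact ⟨g2.1, fun h => g2.2 (boxE_mono hab h)⟩
  refine ⟨w1, w2, v1, v2, hw1, hw2, hv1, hv2, k1, k2, fun hc => hn ?_⟩
  exact hr1.trans ((k1.mono hsub).symm.trans ((hc.mono hsub).trans ((k2.mono hsub).trans hr2.symm)))

theorem AF4_outer {a b N : ℕ} {F : Set Edg} (hab : a ≤ b) (hN : b ≤ N) (h : AF4 a N F) :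
    AF4 a b F := by
  obtain ⟨u1, u2, v1, v2, hu1, hu2, hv1, hv2, hr1, hr2, hn⟩ := h
  have hin : ∀ {u : Vtx}, onB a u → inR (-(b:ℤ)) b (-(b:ℤ)) b u := by
    intro u hu
    obtain ⟨h1, _⟩ := hu
    unfold inR at h1 ⊢
    omega
  have hout : ∀ {v : Vtx}, onB N v → v.1 ≤ -(b:ℤ) ∨ (b:ℤ) ≤ v.1 ∨ v.2 ≤ -(b:ℤ) ∨ (b:ℤ) ≤ v.2 := by
    intro v hv
    obtain ⟨_, h1⟩ := hv
    omega
  have hsub : (F ∩ ↑(An a N)) ∩ ↑(RE (-(b:ℤ)) b (-(b:ℤ)) b) ⊆ F ∩ ↑(An a b) := by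
    rintro x ⟨⟨k1, k2⟩, k3⟩
    exact ⟨k1, mem_coe.2 (INDI_memAn.2 ⟨mem_coe.1 k3, (INDI_memAn.1 (mem_coe.1 k2)).2⟩)⟩
  have hsub2 : F ∩ ↑(An a b) ⊆ F ∩ ↑(An a N) := by
    rintro g ⟨g1, g2⟩
    refine ⟨g1, ?_⟩
    rw [mem_coe, INDI_memAn] at g2 ⊢
    exact ⟨boxE_mono hN g2.1, g2.2⟩
  obtain ⟨z1, m1, m2, m3⟩ := first_exit (hin hu1) hr1 (hout hv1)
  obtain ⟨z2, n1, n2, n3⟩ := first_exit (hin hu2) hr2 (hout hv2)
  exact ⟨u1, u2, z1, z2, hu1, hu2, ⟨m1, m2⟩, ⟨n1, n2⟩, m3.mono hsub, n3.mono hsub,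
    fun hc => hn (hc.mono hsub2)⟩

/-- An edge whose flip changes the four-arm event. -/
theorem AF4_flip {a N b1 b2 κ : ℕ} {e : Edg} (ha : 1 ≤ a) (h1 : a ≤ b1) (h2 : b2 ≤ N)
    (hκ : 1 ≤ κ) (he1 : Disjoint (ebx e (κ + 3)) (boxE b1)) (he2 : ebx e (κ + 3) ⊆ boxE b2)
    {F : Finset Edg}
    (h : ¬ (AF4 a N (↑(insert e F) : Set Edg) ↔ AF4 a N (↑(F.erase e) : Set Edg))) :
    (A4e κ e (↑F : Set Edg) ∨ A4d κ e F) ∧ AF4 a b1 (↑F : Set Edg) ∧
      AF4 b2 N (↑F : Set Edg) := by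
  -- geometry
  have heE : e ∈ ebx e (κ + 3) := mem_ebx (by omega)
  have hebx2 : ∀ g : Edg, g ∈ ebx e (κ + 3) → g ∈ boxE b2 := fun g hg => he2 hg
  have hc1 : -(b2:ℤ) ≤ e.1 - (κ + 3) ∧ -(b2:ℤ) ≤ e.2.1 - (κ + 3) := by
    have := hebx2 (e.1 - (κ + 3), e.2.1 - (κ + 3), true) (by
      unfold ebx
      rw [mem_RE_true]
      push_cast
      omega)
    unfold boxE at this
    rw [mem_RE_true] at this
    omega
  have hc2 : e.1 + (κ + 3) ≤ (b2:ℤ) ∧ e.2.1 + (κ + 3) ≤ (b2:ℤ) := by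
    have := hebx2 (e.1 + (κ + 2), e.2.1 + (κ + 3), true) (by
      unfold ebx
      rw [mem_RE_true]
      push_cast
      omega)
    unfold boxE at this
    rw [mem_RE_true] at this
    omega
  have hsep : ∀ v : Vtx, -(b1:ℤ) ≤ v.1 → v.1 ≤ b1 → -(b1:ℤ) ≤ v.2 → v.2 ≤ b1 →
      ¬ ((e.1 - (κ + 2) ≤ v.1 ∧ v.1 ≤ e.1 + (κ + 2)) ∧
        (e.2.1 - (κ + 3) ≤ v.2 ∧ v.2 ≤ e.2.1 + (κ + 3))) := by
    intro v k1 k2 k3 k4 k5
    have hb1 : 1 ≤ b1 := le_trans ha h1
    by_cases hv : v.1 < b1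
    · have m1 : ((v.1, v.2, true) : Edg) ∈ ebx e (κ + 3) := by
        unfold ebx
        rw [mem_RE_true]
        push_cast
        omega
      have m2 : ((v.1, v.2, true) : Edg) ∈ boxE b1 := by
        unfold boxE
        rw [mem_RE_true]
        omega
      exact (Finset.disjoint_left.mp he1 m1) m2
    · have m1 : ((v.1 - 1, v.2, true) : Edg) ∈ ebx e (κ + 3) := by
        unfold ebx
        rw [mem_RE_true]
        push_cast
        omega
      have m2 : ((v.1 - 1, v.2, true) : Edg) ∈ boxE b1 := by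
        unfold boxE
        rw [mem_RE_true]
        omega
      exact (Finset.disjoint_left.mp he1 m1) m2
  have hb12 : b1 < b2 := by
    by_contra hcon
    push Not at hcon
    have hsub : e ∈ boxE b1 := by
      have := he2 heE
      unfold boxE at this ⊢
      exact RE_subset (by omega) (by omega) (by omega) (by omega) this
    exact (Finset.disjoint_left.mp he1 heE) hsub
  have hebxmono : ∀ {m : ℕ}, m ≤ κ + 3 → ebx e m ⊆ ebx e (κ + 3) := by
    intro m hm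
    unfold ebx
    exact RE_subset (by omega) (by omega) (by omega) (by omega)
  have hAn : ∀ g ∈ ebx e (κ + 3), g ∈ An a N := by
    intro g hg
    refine INDI_memAn.2 ⟨boxE_mono h2 (he2 hg), fun hga => ?_⟩
    exact (Finset.disjoint_left.mp he1 hg) (boxE_mono h1 hga)
  have heAn : e ∈ An a N := hAn e heE
  have heb1 : e ∉ boxE b1 := Finset.disjoint_left.mp he1 heE
  have heb2 : e ∈ boxE b2 := he2 heE
  have hplus : (↑(insert e F) : Set Edg) = insert e (↑F : Set Edg) := Finset.coe_insert _ _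
  have hminus : (↑(F.erase e) : Set Edg) = (↑F : Set Edg) \ {e} := Finset.coe_erase _ _
  rw [hplus, hminus] at h
  -- one of the two configurations satisfies the event
  have hone : AF4 a N (insert e (↑F : Set Edg)) ∨ AF4 a N ((↑F : Set Edg) \ {e}) := by tauto
  have hinner : AF4 a b1 (↑F : Set Edg) := by
    rcases hone with hh | hh
    · have := AF4_outer h1 (by omega) hh
      refine (AF4_congr ?_).mp this
      ext g
      simp only [Set.mem_inter_iff, Set.mem_insert_iff, mem_coe, INDI_memAn]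
      constructor
      · rintro ⟨rfl | h3, h4⟩
        · exact absurd h4.1 heb1
        · exact ⟨h3, h4⟩
      · rintro ⟨h3, h4⟩
        exact ⟨Or.inr h3, h4⟩
    · have := AF4_outer h1 (by omega) hh
      refine (AF4_congr ?_).mp this
      ext g
      simp only [Set.mem_inter_iff, Set.mem_sdiff, Set.mem_singleton_iff, mem_coe, INDI_memAn]
      constructor
      · rintro ⟨⟨h3, _⟩, h4⟩
        exact ⟨h3, h4⟩
      · rintro ⟨h3, h4⟩
        refine ⟨⟨h3, ?_⟩, h4⟩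
        rintro rfl
        exact heb1 h4.1
  have houter : AF4 b2 N (↑F : Set Edg) := by
    rcases hone with hh | hh
    · have := AF4_inner (show a ≤ b2 by omega) h2 hh
      refine (AF4_congr ?_).mp this
      ext g
      simp only [Set.mem_inter_iff, Set.mem_insert_iff, mem_coe, INDI_memAn]
      constructor
      · rintro ⟨rfl | h3, h4⟩
        · exact absurd heb2 h4.2
        · exact ⟨h3, h4⟩
      · rintro ⟨h3, h4⟩
        exact ⟨Or.inr h3, h4⟩
    · have := AF4_inner (show a ≤ b2 by omega) h2 hh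
      refine (AF4_congr ?_).mp this
      ext g
      simp only [Set.mem_inter_iff, Set.mem_sdiff, Set.mem_singleton_iff, mem_coe, INDI_memAn]
      constructor
      · rintro ⟨⟨h3, _⟩, h4⟩
        exact ⟨h3, h4⟩
      · rintro ⟨h3, h4⟩
        refine ⟨⟨h3, ?_⟩, h4⟩
        rintro rfl
        exact h4.2 heb2
  refine ⟨Or.inl ?_, hinner, houter⟩
  -- the sets
  have hS1 : (insert e (↑F : Set Edg)) ∩ ↑(An a N) = insert e ((↑F : Set Edg) ∩ ↑(An a N)) := by
    rw [Set.insert_inter_of_mem (mem_coe.2 heAn)]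
  have hS2 : ((↑F : Set Edg) \ {e}) ∩ ↑(An a N) = ((↑F : Set Edg) ∩ ↑(An a N)) \ {e} := by
    rw [Set.inter_sdiff_right_comm]
  -- a pivotality
  have hpv : ∃ u v : Vtx, (onB a u ∨ onB N u) ∧ (onB a v ∨ onB N v) ∧
      Pv {u} {v} e ((↑F : Set Edg) ∩ ↑(An a N)) := by
    have hmono : ((↑F : Set Edg) ∩ ↑(An a N)) \ {e} ⊆ insert e ((↑F : Set Edg) ∩ ↑(An a N)) :=
      fun g hg => Or.inr hg.1
    by_cases hP : AF4 a N (insert e (↑F : Set Edg))
    · have hM : ¬ AF4 a N ((↑F : Set Edg) \ {e}) := fun hh => h ⟨fun _ => hh, fun _ => hP⟩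
      obtain ⟨u1, u2, v1, v2, hu1, hu2, hv1, hv2, hr1, hr2, hn⟩ := hP
      rw [hS1] at hr1 hr2 hn
      by_cases c1 : Reach (((↑F : Set Edg) ∩ ↑(An a N)) \ {e}) u1 v1
      · by_cases c2 : Reach (((↑F : Set Edg) ∩ ↑(An a N)) \ {e}) u2 v2
        · exfalso
          apply hM
          refine ⟨u1, u2, v1, v2, hu1, hu2, hv1, hv2, ?_, ?_, ?_⟩
          · rw [hS2]; exact c1
          · rw [hS2]; exact c2
          · rw [hS2]; exact fun hc => hn (hc.mono hmono)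
        · refine ⟨u2, v2, Or.inl hu2, Or.inr hv2, ⟨u2, rfl, v2, rfl, hr2⟩, ?_⟩
          rintro ⟨x, hx, y, hy, hxy⟩
          rw [Set.mem_singleton_iff] at hx hy
          subst hx; subst hy
          exact c2 hxy
      · refine ⟨u1, v1, Or.inl hu1, Or.inr hv1, ⟨u1, rfl, v1, rfl, hr1⟩, ?_⟩
        rintro ⟨x, hx, y, hy, hxy⟩
        rw [Set.mem_singleton_iff] at hx hy
        subst hx; subst hy
        exact c1 hxy
    · have hM : AF4 a N ((↑F : Set Edg) \ {e}) := hone.resolve_left hP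
      obtain ⟨u1, u2, v1, v2, hu1, hu2, hv1, hv2, hr1, hr2, hn⟩ := hM
      rw [hS2] at hr1 hr2 hn
      refine ⟨u1, u2, Or.inl hu1, Or.inl hu2, ⟨u1, rfl, u2, rfl, ?_⟩, ?_⟩
      · by_contra hcon
        apply hP
        refine ⟨u1, u2, v1, v2, hu1, hu2, hv1, hv2, ?_, ?_, ?_⟩
        · rw [hS1]; exact hr1.mono hmono
        · rw [hS1]; exact hr2.mono hmono
        · rw [hS1]; exact hcon
      · rintro ⟨x, hx, y, hy, hxy⟩
        rw [Set.mem_singleton_iff] at hx hy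
        subst hx; subst hy
        exact hn hxy
  obtain ⟨u, v, hu, hv, hpv⟩ := hpv
  have hfar : ∀ w : Vtx, (onB a w ∨ onB N w) →
      ¬ (e.1 - (κ:ℤ) < w.1 ∧ w.1 < e.1 + κ ∧ e.2.1 - κ < w.2 ∧ w.2 < e.2.1 + κ) := by
    rintro w (hw | hw) hin
    · obtain ⟨hv1, _⟩ := (show onB a w from hw)
      unfold inR at hv1
      exact hsep w (by omega) (by omega) (by omega) (by omega) (by omega)
    · obtain ⟨hv1, hv2⟩ := (show onB N w from hw)
      unfold inR at hv1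
      omega
  have hA : A4e κ e ((↑F : Set Edg) ∩ ↑(An a N)) := by
    unfold A4e
    refine loc_a4 (mem_ebx hκ) ?_ hpv
    rintro w (hw | hw)
    · rw [Set.mem_singleton_iff] at hw
      subst hw
      exact hfar w hu
    · rw [Set.mem_singleton_iff] at hw
      subst hw
      exact hfar w hv
  refine (A4e_local ?_).mp hA
  ext g
  simp only [Set.mem_inter_iff, mem_coe]
  constructor
  · rintro ⟨⟨k1, _⟩, k3⟩
    exact ⟨k1, k3⟩
  · rintro ⟨k1, k3⟩
    exact ⟨⟨k1, hAn g (hebxmono (by omega) k3)⟩, k3⟩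

/-- **Four arms in an annulus**, from `blk_dom` and `exit_blk`. -/
theorem A4a_sharp_of
    (hblk : ∃ C : ℝ, 0 < C ∧ ∀ (p : Edg → ℝ) (S : Finset Edg) (I J I' J' : Set Vtx)
      (c : ℤ × ℤ) (d k : ℕ), 1 ≤ d → d ≤ k → DomB p S I J I' J' c k →
        Pr p S (fun F => BPv I J (blk c d) ↑F) ≤ C * ((d:ℝ) / k) ^ (5/4 : ℝ))
    (hexit : ∃ (C c : ℝ), 0 < C ∧ 0 < c ∧ ∀ (L : ℕ) (δ : ℝ), 2 ≤ L → 0 < δ →
      ∃ M1 M20 : ℕ, 64 ≤ M1 ∧ 8 * M1 ≤ M20 ∧ ∀ M2 : ℕ, M20 ≤ M2 → ∃ N : ℕ, ∀ m d : ℕ,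
        64 * M2 ≤ m → 1 ≤ d → 64 * d ≤ m →
        PQ (1/2) (SR L m) (fun F => ∃ u ∈ bdB (0, 0) d, ∃ u' ∈ bdB (0, 0) d,
            (∃ w ∈ bdR (-(2 * L * m : ℕ)) (2 * L * m : ℕ) (-m) m,
              Reach ((↑F : Set Edg) \ ↑(boxE d)) u w) ∧
            (∃ w ∈ bdR (-(2 * L * m : ℕ)) (2 * L * m : ℕ) (-m) m,
              Reach ((↑F : Set Edg) \ ↑(boxE d)) u' w) ∧
            ¬ Reach ((↑F : Set Edg) \ ↑(boxE d)) u u') ≤
          (∑ p ∈ prs L m (m / M2) N, PQ (1/2) (SR L m) (fun F =>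
            (p.1.1 = p.2.1 → 4 * ((m / M2 : ℕ):ℤ) <
              |2 * ((m / M2 : ℕ):ℤ) * p.1.2 - 2 * ((m / M2 : ℕ):ℤ) * p.2.2|) ∧
            BPv (cell p.1.1 m (2 * (m / M2 : ℕ) * p.1.2) (m / M2))
              (cell p.2.1 m (2 * (m / M2 : ℕ) * p.2.2) (m / M2)) (boxE d) ↑F)) +
          (δ + C * Real.exp (-c * L)) *
            PQ (1/2) (boxE (m / 8)) (fun F => A4a (0, 0) d (m / 8) ↑F)) :
    ∃ C : ℝ, 0 < C ∧ ∀ (c0 : ℤ × ℤ) (d k : ℕ), 1 ≤ d → d ≤ k →
      ∀ S : Finset Edg, blk c0 k ⊆ S →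
        PQ (1/2) S (fun F => A4a c0 d k ↑F) ≤ C * ((d:ℝ) / k) ^ (5 / 4 : ℝ) := by
  obtain ⟨Cb, hCb, hdom⟩ := hblk
  obtain ⟨C, c, hC, hc, hex⟩ := hexit
  obtain ⟨L, hL, hLK⟩ := KY_choose_L C c (5/4) hc
  have hL0 : (0:ℝ) < L := by
    have : 0 < L := by omega
    exact_mod_cast this
  obtain ⟨K, hK⟩ : ∃ K : ℝ, K = (192 * L : ℝ) ^ (5/4 : ℝ) := ⟨_, rfl⟩
  have hK0 : 0 < K := by rw [hK]; positivity
  rw [show (64 * (3 * L : ℕ) : ℝ) = 192 * L by push_cast; ring, ← hK] at hLK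
  obtain ⟨M1, M2, hM1, hM2, hex2⟩ := hex L (1 / (32 * K)) hL (by positivity)
  obtain ⟨N, hex3⟩ := hex2 M2 le_rfl
  clear hex2 hex
  obtain ⟨cd, hcd⟩ : ∃ cd : ℕ, cd = (2 * (2 * N + 1)) * (2 * (2 * N + 1)) := ⟨_, rfl⟩
  have hcd0 : (0:ℝ) < cd := by
    have : 0 < cd := by rw [hcd]; positivity
    exact_mod_cast this
  have hM2p : 512 ≤ M2 := by omega
  obtain ⟨k0, hk0⟩ : ∃ k0 : ℕ, k0 = 256 * L * M2 := ⟨_, rfl⟩
  have hk0p : 0 < k0 := by rw [hk0]; positivity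
  have hk0r : (0:ℝ) < k0 := by exact_mod_cast hk0p
  -- one step
  have step : ∀ m d : ℕ, 64 * M2 ≤ m → 1 ≤ d → 64 * d ≤ m →
      S4C_h d (4 * L * m) ≤ cd * (Cb * ((d:ℝ) / m) ^ (5/4 : ℝ)) +
        2 / (32 * K) * S4C_h d (m / 8) := by
    intro m d hm hd1 hd
    have s1 := S4C_h_thin (L := L) (m := m) (d := d) hL (by omega)
    have s2 := hex3 m d hm hd1 hd
    have s3 : ∀ p ∈ prs L m (m / M2) N, PQ (1/2) (SR L m) (fun F =>
            (p.1.1 = p.2.1 → 4 * ((m / M2 : ℕ):ℤ) <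
              |2 * ((m / M2 : ℕ):ℤ) * p.1.2 - 2 * ((m / M2 : ℕ):ℤ) * p.2.2|) ∧
            BPv (cell p.1.1 m (2 * (m / M2 : ℕ) * p.1.2) (m / M2))
              (cell p.2.1 m (2 * (m / M2 : ℕ) * p.2.2) (m / M2)) (boxE d) ↑F) ≤
          Cb * ((d:ℝ) / m) ^ (5/4 : ℝ) := by
      intro p hp
      unfold prs at hp
      rw [Finset.mem_filter] at hp
      obtain ⟨-, g1, g2⟩ := hp
      by_cases hfar : (p.1.1 = p.2.1 → 4 * ((m / M2 : ℕ):ℤ) <
              |2 * ((m / M2 : ℕ):ℤ) * p.1.2 - 2 * ((m / M2 : ℕ):ℤ) * p.2.2|)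
      · refine le_trans (Pr_mono S4C_ok (fun F _ hF => hF.2)) ?_
        have hr1 : 1 ≤ m / M2 := by
          rw [Nat.le_div_iff_mul_le (by omega)]; omega
        have hr2 : 512 * (m / M2) ≤ m :=
          (Nat.mul_le_mul_right _ hM2p).trans (Nat.mul_div_le m M2)
        exact S4C_pair hdom hL hr1 hr2 hd1 (by omega) p.1.1 p.2.1 p.1.2 p.2.2 g1 g2 hfar
      · refine le_trans (Pr_mono S4C_ok (B := fun _ => False) (fun F _ hF => hfar hF.1)) ?_
        have e0 : Pr (fun _ => (1/2:ℝ)) (SR L m) (fun _ => False) = 0 := by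
          unfold Pr
          rw [Ex_congr (g := fun _ => (0:ℝ)) (fun F _ => ind_not_of (fun h => h)), Ex_const]
        rw [e0]
        positivity
    have s4 := Finset.sum_le_card_nsmul _ _ _ s3
    rw [nsmul_eq_mul] at s4
    have hcard : ((prs L m (m / M2) N).card : ℝ) ≤ cd := by
      rw [hcd]
      exact_mod_cast kc_prs_card L m (m / M2) N
    have s5 : ((prs L m (m / M2) N).card : ℝ) * (Cb * ((d:ℝ) / m) ^ (5/4 : ℝ)) ≤
        cd * (Cb * ((d:ℝ) / m) ^ (5/4 : ℝ)) :=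
      mul_le_mul_of_nonneg_right hcard (by positivity)
    have e2 : C * Real.exp (-c * L) ≤ 1 / (32 * K) := by
      rw [div_mul_eq_div_div, le_div_iff₀ hK0]
      exact hLK
    have e3 : (1 / (32 * K) + C * Real.exp (-c * L)) * S4C_h d (m / 8) ≤
        2 / (32 * K) * S4C_h d (m / 8) := by
      apply mul_le_mul_of_nonneg_right _ (S4C_h_nonneg _ _)
      have : 2 / (32 * K) = 1 / (32 * K) + 1 / (32 * K) := by ring
      rw [this]
      linarith
    have s6 := s1.trans s2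
    exact s6.trans (add_le_add (s4.trans s5) e3)
  -- iteration
  set C0 : ℝ := 2 * (cd * Cb) * (8 * L : ℝ) ^ (5/4 : ℝ) + (k0:ℝ) ^ (5/4 : ℝ) with hC0
  have hC0p : 0 < C0 := by positivity
  have main : ∀ d : ℕ, 1 ≤ d → ∀ k : ℕ, d ≤ k → S4C_h d k ≤ C0 * ((d:ℝ) / k) ^ (5/4 : ℝ) := by
    intro d hd k
    have hd0 : (0:ℝ) < d := by exact_mod_cast hd
    induction k using Nat.strong_induction_on with
    | _ k ih =>
      intro hk
      have hkr : (0:ℝ) < k := hd0.trans_le (by exact_mod_cast hk)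
      rcases lt_or_ge k (k0 * d) with hlt | hge
      · have h1 := S4C_h_le_one d k
        have h2 : (1:ℝ) ≤ (k0:ℝ) ^ (5/4 : ℝ) * ((d:ℝ) / k) ^ (5/4 : ℝ) := by
          rw [← Real.mul_rpow hk0r.le (by positivity)]
          apply Real.one_le_rpow _ (by norm_num)
          rw [← mul_div_assoc, le_div_iff₀ hkr, one_mul]
          exact_mod_cast hlt.le
        have h3 : 0 ≤ 2 * (cd * Cb) * (8 * L : ℝ) ^ (5/4 : ℝ) * ((d:ℝ) / k) ^ (5/4 : ℝ) := by
          positivity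
        rw [hC0, add_mul]
        linarith
      · obtain ⟨m, hm⟩ : ∃ m : ℕ, m = k / (4 * L) := ⟨_, rfl⟩
        have hq : 0 < 4 * L := by omega
        have h1 : 4 * L * m ≤ k := by rw [hm]; exact Nat.mul_div_le _ _
        have h2 : k < 4 * L * m + 4 * L := by
          rw [hm]
          have := Nat.lt_mul_div_succ k hq
          rw [Nat.mul_add, Nat.mul_one] at this
          exact this
        have hmb : 64 * M2 * d ≤ m := by
          rw [hm, Nat.le_div_iff_mul_le hq]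
          calc 64 * M2 * d * (4 * L) = k0 * d := by rw [hk0]; ring
            _ ≤ k := hge
        have hmM : 64 * M2 ≤ m := by
          calc 64 * M2 = 64 * M2 * 1 := by ring
            _ ≤ 64 * M2 * d := Nat.mul_le_mul_left _ hd
            _ ≤ m := hmb
        have hmd : 64 * d ≤ m := by
          calc 64 * d = 64 * 1 * d := by ring
            _ ≤ 64 * M2 * d := Nat.mul_le_mul_right _ (Nat.mul_le_mul_left _ (by omega))
            _ ≤ m := hmb
        have hm1 : 1 ≤ m := by omega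
        have hkm : k ≤ 8 * L * m := by
          have h6 : 8 * L * m = 2 * (4 * L * m) := by ring
          rw [h6]
          have h7 : 4 * L * 1 ≤ 4 * L * m := Nat.mul_le_mul_left _ hm1
          omega
        have hm0 : (0:ℝ) < m := by exact_mod_cast (show 0 < m by omega)
        have h4 := step m d hmM hd hmd
        have h5 : S4C_h d k ≤ S4C_h d (4 * L * m) := by
          apply S4C_h_anti _ h1
          have : 1 * m ≤ 4 * L * m := Nat.mul_le_mul_right _ (by omega)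
          omega
        have hmk : m < k := by
          have : 1 * m < 4 * L * m := Nat.mul_lt_mul_of_pos_right (by omega) (by omega)
          omega
        have h6 := ih (m / 8) (by omega) (by omega)
        have hmk2 : (k:ℝ) / (8 * L) ≤ m := by
          rw [div_le_iff₀ (by positivity)]
          have : (k:ℝ) ≤ ((8 * L * m : ℕ) : ℝ) := by exact_mod_cast hkm
          push_cast at this
          linarith
        have h7 : ((d:ℝ) / m) ^ (5/4 : ℝ) ≤ (8 * L : ℝ) ^ (5/4 : ℝ) * ((d:ℝ) / k) ^ (5/4 : ℝ) := by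
          rw [← Real.mul_rpow (by positivity) (by positivity)]
          apply Real.rpow_le_rpow (by positivity) _ (by norm_num)
          rw [div_le_iff₀ hm0]
          rw [div_le_iff₀ (by positivity)] at hmk2
          have e : 8 * (L:ℝ) * ((d:ℝ) / k) * m = d * ((m * (8 * L)) / k) := by ring
          rw [e]
          have : (1:ℝ) ≤ (m * (8 * L)) / k := by rw [le_div_iff₀ hkr]; linarith
          nlinarith
        have hm8 : (0:ℝ) < ((m / 8 : ℕ) : ℝ) := by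
          have : 0 < m / 8 := by omega
          exact_mod_cast this
        have h8 : ((d:ℝ) / ((m / 8 : ℕ) : ℝ)) ^ (5/4 : ℝ) ≤
            (192 * L : ℝ) ^ (5/4 : ℝ) * ((d:ℝ) / k) ^ (5/4 : ℝ) := by
          have e1 : (k:ℝ) ≤ ((m / 8 : ℕ) : ℝ) * (192 * L) := by
            have e2 : m ≤ 9 * (m / 8) + 0 := by omega
            have e3 : (m:ℝ) ≤ 9 * ((m / 8 : ℕ) : ℝ) := by exact_mod_cast e2
            rw [div_le_iff₀ (by positivity)] at hmk2
            nlinarith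
          rw [← Real.mul_rpow (by positivity) (by positivity)]
          apply Real.rpow_le_rpow (by positivity) _ (by norm_num)
          rw [div_le_iff₀ hm8]
          have e : 192 * (L:ℝ) * ((d:ℝ) / k) * ((m / 8 : ℕ) : ℝ) =
            d * ((((m / 8 : ℕ) : ℝ) * (192 * L)) / k) := by ring
          rw [e]
          have : (1:ℝ) ≤ (((m / 8 : ℕ) : ℝ) * (192 * L)) / k := by
            rw [le_div_iff₀ hkr]; linarith
          nlinarith
        have hkp : 0 < ((d:ℝ) / k) ^ (5/4 : ℝ) := by positivity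
        have h9 : 2 / (32 * K) * S4C_h d (m / 8) ≤ C0 / 4 * ((d:ℝ) / k) ^ (5/4 : ℝ) := by
          calc 2 / (32 * K) * S4C_h d (m / 8)
              ≤ 2 / (32 * K) * (C0 * ((d:ℝ) / ((m / 8 : ℕ) : ℝ)) ^ (5/4 : ℝ)) :=
                mul_le_mul_of_nonneg_left h6 (by positivity)
            _ ≤ 2 / (32 * K) * (C0 * (K * ((d:ℝ) / k) ^ (5/4 : ℝ))) := by
                rw [hK]; gcongr
            _ = 1 / 16 * (C0 * ((d:ℝ) / k) ^ (5/4 : ℝ)) := by
                field_simp; norm_num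
            _ ≤ C0 / 4 * ((d:ℝ) / k) ^ (5/4 : ℝ) := by
                have := mul_pos hC0p hkp
                linarith
        have h10 : cd * (Cb * ((d:ℝ) / m) ^ (5/4 : ℝ)) ≤ C0 / 2 * ((d:ℝ) / k) ^ (5/4 : ℝ) := by
          calc cd * (Cb * ((d:ℝ) / m) ^ (5/4 : ℝ)) ≤
                cd * (Cb * ((8 * L : ℝ) ^ (5/4 : ℝ) * ((d:ℝ) / k) ^ (5/4 : ℝ))) := by gcongr
            _ = (cd * Cb * (8 * L : ℝ) ^ (5/4 : ℝ)) * ((d:ℝ) / k) ^ (5/4 : ℝ) := by ring
            _ ≤ C0 / 2 * ((d:ℝ) / k) ^ (5/4 : ℝ) := by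
                apply mul_le_mul_of_nonneg_right _ hkp.le
                have : 0 ≤ (k0:ℝ) ^ (5/4 : ℝ) := by positivity
                rw [hC0]
                linarith
        calc S4C_h d k ≤ S4C_h d (4 * L * m) := h5
          _ ≤ cd * (Cb * ((d:ℝ) / m) ^ (5/4 : ℝ)) + 2 / (32 * K) * S4C_h d (m / 8) := h4
          _ ≤ C0 / 2 * ((d:ℝ) / k) ^ (5/4 : ℝ) + C0 / 4 * ((d:ℝ) / k) ^ (5/4 : ℝ) :=
              add_le_add h10 h9
          _ ≤ C0 * ((d:ℝ) / k) ^ (5/4 : ℝ) := by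
              have := mul_pos hC0p hkp
              linarith
  refine ⟨C0, hC0p, ?_⟩
  intro c0 d k hd hk S hS
  exact (S4C_le_h hS).trans (main d hd k hk)


/-- Four arms in an annulus, with the exponent `5/4`. -/
theorem A4a_sharp : ∃ C : ℝ, 0 < C ∧ ∀ (c0 : ℤ × ℤ) (d k : ℕ), 1 ≤ d → d ≤ k →
    ∀ S : Finset Edg, blk c0 k ⊆ S →
      PQ (1/2) S (fun F => A4a c0 d k ↑F) ≤ C * ((d:ℝ) / k) ^ (5 / 4 : ℝ) :=
  A4a_sharp_of blk_dom exit_blk

theorem onB_bdB {k : ℕ} {w : Vtx} (h : onB k w) : w ∈ bdB (0, 0) k := by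
  obtain ⟨h1, h2⟩ := h
  refine S4C_bdB_of ?_ ?_
  · unfold inR at h1 ⊢
    simp only
    omega
  · simp only
    omega

/-- The two forms of the four-arm event. -/
theorem AF4_A4a {a N : ℕ} {F : Set Edg} (h : AF4 a N F) : A4a (0, 0) a N F := by
  obtain ⟨u1, u2, v1, v2, hu1, hu2, hv1, hv2, hr1, hr2, hn⟩ := h
  have e1 : An a N = blk (0, 0) N \ blk (0, 0) a := by
    rw [S4C_blk0, S4C_blk0]
    rfl
  rw [e1] at hr1 hr2 hn
  exact ⟨u1, onB_bdB hu1, u2, onB_bdB hu2, ⟨v1, onB_bdB hv1, hr1⟩, ⟨v2, onB_bdB hv2, hr2⟩, hn⟩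

theorem AF4_upper : ∃ C : ℝ, 0 < C ∧ ∀ a N : ℕ, 1 ≤ a → a ≤ N →
    PQ (1 / 2) (An a N) (fun F => AF4 a N ↑F) ≤ C * ((a:ℝ) / N) ^ (5 / 4 : ℝ) := by
  obtain ⟨C, hC, h⟩ := A4a_sharp
  refine ⟨C, hC, fun a N ha haN => ?_⟩
  refine le_trans ?_ (h (0, 0) a N ha haN (boxE N) (by rw [S4C_blk0]))
  unfold PQ
  have hsub : An a N ⊆ boxE N := by unfold An; exact Finset.sdiff_subset
  rw [← Pr_local (p := fun _ => (1/2:ℝ)) hsub (A := fun F => AF4 a N (↑F : Set Edg))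
    (fun F _ => by
      apply AF4_congr
      rw [Finset.coe_inter, Set.inter_assoc, Set.inter_self])]
  exact Pr_mono (okq (by norm_num) (by norm_num)) fun F _ hF => AF4_A4a hF

/-- **Four arms in an annulus form a family of arm events with the exponent `5/4`.** -/
theorem af4 : S_AF4 where
  congr := AF4_congr
  inner := AF4_inner
  outer := AF4_outer
  flip := fun h1 h2 h3 h4 h5 h6 => AF4_flip h1 h2 h3 h4 h5 h6
  pos := by norm_num
  upper := AF4_upper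

end Pool.Agent.Y554.SN
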