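import Pool.Agent.Y381.SN.AF4
import Pool.Agent.H389R2.NS.E2a

/-! Project SN: annuli inside the square. -/

set_option autoImplicit false

namespace Pool.Agent.Y554.SN

open H974 H12S H985T H389NS Finset Pool.Agent.Y554.DP

/-- A path in `F ∪ B` from a vertex far from the block `B` avoids the block or meets its
boundary for the first time. -/
theorem bulk_enter {z : ℤ × ℤ} {a : ℕ} {F : Set Edg} {u : Vtx}
    (hu : u.1 ≤ z.1 - a ∨ z.1 + a ≤ u.1 ∨ u.2 ≤ z.2 - a ∨ z.2 + a ≤ u.2)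
    {v : Vtx} (h : Reach (F ∪ ↑(blk z a)) u v) :
    Reach (F \ ↑(blk z a)) u v ∨ ∃ w ∈ bdB z a, Reach (F \ ↑(blk z a)) u w := by
  induction h with
  | refl => exact Or.inl (Reach.refl _ _)
  | @tail y y' _ hs ih =>
    rcases ih with ih | ih
    · obtain ⟨e, he, hcase⟩ := hs
      by_cases heB : e ∈ (↑(blk z a) : Set Edg)
      · right
        have hends := BS_adj_box (mem_coe.1 heB)
        have hy : inR (z.1 - a) (z.1 + a) (z.2 - a) (z.2 + a) y := by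
          rcases hcase with ⟨h1, _⟩ | ⟨_, h1⟩
          · rw [← h1]; exact hends.1
          · rw [← h1]; exact hends.2
        obtain ⟨w, k1, k2, k3⟩ := first_exit hy ih.symm hu
        exact ⟨w, S4C_bdB_of k1 k2, ih.trans (k3.mono Set.inter_subset_left)⟩
      · left
        have he' : e ∈ F \ ↑(blk z a) := ⟨he.resolve_right heB, heB⟩
        exact ih.trans (Adj.reach ⟨e, he', hcase⟩)
    · exact Or.inr ih

/-- Four arms around a pivotal block. -/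
theorem bulk_det {n a N : ℕ} {z : ℤ × ℤ} (haN : a ≤ N) (h1 : |z.1| + N ≤ n)
    {F : Finset Edg} (h : UE n z a N F) : A4a z a N (↑F : Set Edg) := by
  obtain ⟨F', hF', hFF, ⟨u, hu, v, hv, huv⟩, hno⟩ := h
  have i1 := abs_le.mp (le_refl |z.1|)
  have hu1 : u.1 = -(n:ℤ) := hu.1
  have hv1 : v.1 = (n:ℤ) := hv.1
  have hset : (↑F' : Set Edg) \ ↑(blk z a ∩ boxE n) = (↑F' : Set Edg) \ ↑(blk z a) := by
    ext e
    simp only [Set.mem_sdiff, mem_coe, Finset.mem_inter]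
    constructor
    · rintro ⟨g1, g2⟩
      exact ⟨g1, fun hb => g2 ⟨hb, hF' g1⟩⟩
    · rintro ⟨g1, g2⟩
      exact ⟨g1, fun hb => g2 hb.1⟩
  rw [hset] at hno
  have huv' : Reach ((↑F' : Set Edg) ∪ ↑(blk z a)) u v := by
    refine huv.mono ?_
    rintro e (he | he)
    · exact Or.inl he
    · exact Or.inr (mem_coe.2 (Finset.mem_inter.1 (mem_coe.1 he)).1)
  have hnuv : ¬ Reach ((↑F' : Set Edg) \ ↑(blk z a)) u v := fun hc => hno ⟨u, hu, v, hv, hc⟩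
  obtain ⟨w1, hw1, r1⟩ := (bulk_enter (by omega) huv').resolve_left hnuv
  obtain ⟨w2, hw2, r2⟩ := (bulk_enter (by omega) huv'.symm).resolve_left
    (fun hc => hnuv hc.symm)
  have hsub : ((↑F' : Set Edg) \ ↑(blk z a)) ∩ ↑(RE (z.1 - N) (z.1 + N) (z.2 - N) (z.2 + N)) ⊆
      (↑F : Set Edg) ∩ ↑(blk z N \ blk z a) := by
    rintro e ⟨⟨g1, g2⟩, g3⟩
    have g4 : e ∈ Anz z a N := by
      unfold Anz
      exact Finset.mem_sdiff.2 ⟨mem_coe.1 g3, fun hb => g2 (mem_coe.2 hb)⟩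
    have g5 : e ∈ F' ∩ Anz z a N := Finset.mem_inter.2 ⟨mem_coe.1 g1, g4⟩
    rw [hFF] at g5
    exact ⟨mem_coe.2 (Finset.mem_inter.1 g5).1, mem_coe.2 g4⟩
  have hsub2 : (↑F : Set Edg) ∩ ↑(blk z N \ blk z a) ⊆ (↑F' : Set Edg) \ ↑(blk z a) := by
    rintro e ⟨g1, g2⟩
    have g4 : e ∈ Anz z a N := g2
    have g5 : e ∈ F ∩ Anz z a N := Finset.mem_inter.2 ⟨mem_coe.1 g1, g4⟩
    rw [← hFF] at g5
    exact ⟨mem_coe.2 (Finset.mem_inter.1 g5).1,
      fun hb => (Finset.mem_sdiff.1 (mem_coe.1 g2)).2 (mem_coe.1 hb)⟩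
  obtain ⟨v1, a1, a2, a3⟩ := first_exit (S4C_bdB_inR haN hw1) r1.symm
    (show u.1 ≤ z.1 - N ∨ z.1 + N ≤ u.1 ∨ u.2 ≤ z.2 - N ∨ z.2 + N ≤ u.2 by omega)
  obtain ⟨v2, b1, b2, b3⟩ := first_exit (S4C_bdB_inR haN hw2) r2.symm
    (show v.1 ≤ z.1 - N ∨ z.1 + N ≤ v.1 ∨ v.2 ≤ z.2 - N ∨ z.2 + N ≤ v.2 by omega)
  exact ⟨w1, hw1, w2, hw2, ⟨v1, S4C_bdB_of a1 a2, a3.mono hsub⟩,
    ⟨v2, S4C_bdB_of b1 b2, b3.mono hsub⟩,
    fun hc => hnuv (r1.trans ((hc.mono hsub2).trans r2.symm))⟩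

theorem bdB_onB {k : ℕ} {w : Vtx} (h : w ∈ bdB (0, 0) k) : onB k w := by
  have h1 := S4C_bdB_inR (le_refl k) h
  have h2 := S4C_bdB_far (le_refl k) h
  unfold onB
  unfold inR at h1 ⊢
  simp only at h1 h2
  omega

theorem A4a_AF4 {a N : ℕ} {F : Set Edg} (h : A4a (0, 0) a N F) : AF4 a N F := by
  obtain ⟨u1, hu1, u2, hu2, ⟨v1, hv1, hr1⟩, ⟨v2, hv2, hr2⟩, hn⟩ := h
  have e1 : blk (0, 0) N \ blk (0, 0) a = An a N := by
    rw [S4C_blk0, S4C_blk0]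
    rfl
  rw [e1] at hr1 hr2 hn
  exact ⟨u1, u2, v1, v2, bdB_onB hu1, bdB_onB hu2, bdB_onB hv1, bdB_onB hv2, hr1, hr2, hn⟩

/-- The two-layer probability of the four-arm event of an annulus around `z`. -/
theorem P2_A4a_le {z : ℤ × ℤ} {a N : ℕ} {S : Finset Edg} (hS : Anz z a N ⊆ S) {x : ℝ}
    (h0 : 0 ≤ x) (h1 : x ≤ 1) :
    P2 (fun _ => x) S (fun F => A4a z a N ↑F) (fun F => A4a z a N ↑F) ≤ qX AF4 x a N := by
  have hloc : ∀ F : Finset Edg, F ⊆ S →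
      (A4a z a N (↑F : Set Edg) ↔ A4a z a N (↑(F ∩ Anz z a N) : Set Edg)) := by
    intro F _
    exact E2a.A4a_loc F
  rw [P2_local hS (A := fun F => A4a z a N (↑F : Set Edg)) (B := fun F => A4a z a N (↑F : Set Edg))
    hloc hloc]
  have e2 : Anz z a N = (trl z.1 z.2).mp (An a N) := by
    have hb : ∀ j : ℕ, (trl z.1 z.2).mp (boxE j) = blk z j := by
      intro j
      unfold blk boxE
      rw [trl_RE]
      congr 1 <;> ring
    unfold Anz An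
    rw [LSym.mp_sdiff, hb, hb]
  rw [e2]
  unfold LSym.mp qX
  rw [D0.P2_map]
  refine D0.P2_mono (fun _ _ => ⟨h0, h1⟩) ?_ ?_ <;>
  · intro F _ hF
    exact A4a_AF4 (S4C_trl hF)

/-- **Annuli inside the square.** -/
theorem bulk (hq : S_QXS) (ha : S_AF4) : S_BULK := by
  obtain ⟨C, hC, h⟩ := hq AF4 (5 / 4) ha
  refine ⟨C, hC, fun n a N z x ha1 haN h1 h2 hx0 hx1 hx => ?_⟩
  have hS : Anz z a N ⊆ boxE n := by
    have i1 := abs_le.mp (le_refl |z.1|)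
    have i2 := abs_le.mp (le_refl |z.2|)
    unfold Anz
    refine Finset.sdiff_subset.trans ?_
    unfold blk boxE
    exact RE_subset (by omega) (by omega) (by omega) (by omega)
  have e1 : P2 (fun _ => x) (boxE n) (UE n z a N) (UE n z a N) ≤
      P2 (fun _ => x) (boxE n) (fun F => A4a z a N ↑F) (fun F => A4a z a N ↑F) :=
    D0.P2_mono (fun _ _ => ⟨hx0, hx1.le⟩) (fun F _ hF => bulk_det haN h1 hF)
      (fun F _ hF => bulk_det haN h1 hF)
  refine (e1.trans (P2_A4a_le hS hx0 hx1.le)).trans ((h a N x ha1 haN hx0 hx1 hx).trans ?_)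
  norm_num

end Pool.Agent.Y554.SN
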